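import Pool.Agent.Helper57.REC.Stmts1

/-!
# The integral of `(1 + ‖x‖)^(-d s)`
-/

set_option autoImplicit false

open MeasureTheory Module Set Filter Topology

namespace REC

namespace Intb

theorem aux (c : ℝ) (hc : 0 < c) :
    IntegrableOn (fun y : ℝ => (1 + y) ^ (-c - 1)) (Ioi 0) ∧
      ∫ y in Ioi (0 : ℝ), (1 + y) ^ (-c - 1) = 1 / c := by
  have hder : ∀ x ∈ Ici (0 : ℝ), HasDerivAt (fun y : ℝ => -((1 + y) ^ (-c) / c))
      ((1 + x) ^ (-c - 1)) x := by
    intro x hx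
    have hx0 : (0 : ℝ) ≤ x := hx
    have h1 : HasDerivAt (fun y : ℝ => 1 + y) 1 x := by
      simpa using (hasDerivAt_id x).const_add (1 : ℝ)
    have h2 := h1.rpow_const (p := -c) (Or.inl (by positivity))
    have h3 := (h2.div_const c).neg
    refine h3.congr_deriv ?_
    field_simp
  have hpos : ∀ x ∈ Ioi (0 : ℝ), 0 ≤ (1 + x) ^ (-c - 1) := by
    intro x hx
    have hx0 : (0 : ℝ) < x := hx
    positivity
  have hlim : Tendsto (fun y : ℝ => -((1 + y) ^ (-c) / c)) atTop (𝓝 0) := by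
    have h1 : Tendsto (fun y : ℝ => (1 + y) ^ (-c)) atTop (𝓝 0) :=
      (tendsto_rpow_neg_atTop hc).comp (tendsto_atTop_add_const_left atTop 1 tendsto_id)
    have h2 := (h1.div_const c).neg
    simpa using h2
  refine ⟨integrableOn_Ioi_deriv_of_nonneg' hder hpos hlim, ?_⟩
  rw [integral_Ioi_of_hasDerivAt_of_nonneg' hder hpos hlim]
  simp

end Intb

open Intb

theorem st_INTB : ST_INTB := by
  intro E _ _ _ _ _ _ μ _
  have hd : 0 < finrank ℝ E := finrank_pos
  refine ⟨μ.real (Metric.ball 0 1), measureReal_nonneg, ?_⟩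
  intro s hs1 hs2
  have hdR : (0 : ℝ) < finrank ℝ E := by exact_mod_cast hd
  have hds : (finrank ℝ E : ℝ) < finrank ℝ E * s := by nlinarith
  refine ⟨integrable_one_add_norm hds, ?_⟩
  rw [integral_fun_norm_addHaar μ (fun y => (1 + y) ^ (-(finrank ℝ E * s : ℝ)))]
  have hc : 0 < (finrank ℝ E : ℝ) * (s - 1) := mul_pos hdR (by linarith)
  obtain ⟨h1, h2⟩ := aux ((finrank ℝ E : ℝ) * (s - 1)) hc
  have h3 : ∫ y in Ioi (0 : ℝ), y ^ (finrank ℝ E - 1) • (1 + y) ^ (-(finrank ℝ E * s : ℝ)) ≤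
      1 / ((finrank ℝ E : ℝ) * (s - 1)) := by
    rw [← h2]
    have hle : ∀ y ∈ Ioi (0 : ℝ), y ^ (finrank ℝ E - 1) • (1 + y) ^ (-(finrank ℝ E * s : ℝ)) ≤
        (1 + y) ^ (-((finrank ℝ E : ℝ) * (s - 1)) - 1) := by
      intro y hy
      have hy0 : (0 : ℝ) < y := hy
      have e1 : y ^ (finrank ℝ E - 1) ≤ (1 + y) ^ (finrank ℝ E - 1) :=
        pow_le_pow_left₀ hy0.le (by linarith) _
      have e2 : (1 + y) ^ (-((finrank ℝ E : ℝ) * (s - 1)) - 1) =
          (1 + y) ^ (finrank ℝ E - 1) * (1 + y) ^ (-(finrank ℝ E * s : ℝ)) := by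
        rw [← Real.rpow_natCast (1 + y) (finrank ℝ E - 1), ← Real.rpow_add (by positivity)]
        congr 1
        rw [Nat.cast_sub hd]
        push_cast
        ring
      rw [e2, smul_eq_mul]
      exact mul_le_mul_of_nonneg_right e1 (by positivity)
    refine setIntegral_mono_on ?_ h1 measurableSet_Ioi hle
    refine Integrable.mono' h1 ?_ ?_
    · apply Measurable.aestronglyMeasurable
      fun_prop
    · filter_upwards [ae_restrict_mem measurableSet_Ioi] with y hy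
      have hy0 : (0 : ℝ) < y := hy
      rw [Real.norm_eq_abs, abs_of_nonneg (by rw [smul_eq_mul]; positivity)]
      exact hle y hy
  have hb : 0 ≤ μ.real (Metric.ball (0 : E) 1) := measureReal_nonneg
  rw [nsmul_eq_mul, smul_eq_mul]
  calc (finrank ℝ E : ℝ) * (μ.real (Metric.ball 0 1) *
        ∫ y in Ioi (0 : ℝ), y ^ (finrank ℝ E - 1) • (1 + y) ^ (-(finrank ℝ E * s : ℝ)))
      ≤ (finrank ℝ E : ℝ) * (μ.real (Metric.ball 0 1) * (1 / ((finrank ℝ E : ℝ) * (s - 1)))) :=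
        mul_le_mul_of_nonneg_left (mul_le_mul_of_nonneg_left h3 hb) hdR.le
    _ = μ.real (Metric.ball 0 1) / (s - 1) := by
        have : s - 1 ≠ 0 := by linarith
        field_simp

end REC
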