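import Pool.Agent.Helper57.REC.Stmts1

/-!
# Sums over lattices and integrals
-/

set_option autoImplicit false

open MeasureTheory Module
open scoped Pointwise

namespace REC

namespace Sumi

variable {E : Type} [NormedAddCommGroup E] [NormedSpace ℝ E] [FiniteDimensional ℝ E]
  [MeasurableSpace E] [BorelSpace E] (μ : Measure E) [μ.IsAddHaarMeasure]
  (Λ : Submodule ℤ E) [DiscreteTopology Λ] [IsZLattice ℝ Λ]

set_option backward.privateInPublic true in
theorem domain : ∃ D : Set E, MeasurableSet D ∧ Bornology.IsBounded D ∧ 0 < μ.real D ∧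
    ZLattice.covolume Λ μ = μ.real D ∧ (∀ l : Λ, μ.real ((l : E) +ᵥ D) = μ.real D) ∧
    ∀ f : E → ℝ, Integrable f μ →
      HasSum (fun l : Λ => ∫ x in ((l : E) +ᵥ D), f x ∂μ) (∫ x, f x ∂μ) := by
  have h1 : MeasurableVAdd Λ E := (inferInstance : MeasurableVAdd Λ.toAddSubgroup E)
  have h2 : VAddInvariantMeasure Λ E μ :=
    (inferInstance : VAddInvariantMeasure Λ.toAddSubgroup E μ)
  let b := Free.chooseBasis ℤ Λ
  let D : Set E := ZSpan.fundamentalDomain (b.ofZLatticeBasis ℝ Λ)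
  have hD : IsAddFundamentalDomain Λ D μ := ZLattice.isAddFundamentalDomain b μ
  have hcov := ZLattice.covolume_eq_measure_fundamentalDomain Λ μ hD
  refine ⟨D, ZSpan.fundamentalDomain_measurableSet _, ZSpan.fundamentalDomain_isBounded _, ?_,
    hcov, ?_, ?_⟩
  · rw [← hcov]
    exact ZLattice.covolume_pos Λ μ
  · intro l
    unfold Measure.real
    rw [measure_vadd]
  · intro f hf
    have h3 : Measure.sum (fun g : Λ => μ.restrict (g +ᵥ D)) = μ := hD.sum_restrict
    have h4 : Integrable f (Measure.sum fun g : Λ => μ.restrict (g +ᵥ D)) := by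
      rw [h3]
      exact hf
    have h5 := hasSum_integral_measure h4
    rw [h3] at h5
    exact h5

end Sumi

open Sumi

theorem st_SUMI : ST_SUMI := by
  intro E _ _ _ _ _ μ _ Λ _ _
  obtain ⟨D, hDm, hDb, hD0, hcov, hvol, hsum⟩ := domain μ Λ
  obtain ⟨ρ₀, hρ₀⟩ := hDb.exists_norm_le
  let ρ : ℝ := max ρ₀ 1
  have hρ1 : 0 < ρ := lt_of_lt_of_le one_pos (le_max_right _ _)
  have hρD : ∀ x ∈ D, ‖x‖ ≤ ρ := fun x hx => (hρ₀ x hx).trans (le_max_left _ _)
  have hJi : ∀ a : E, Integrable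
      (fun x : E => (1 + ‖a + x‖) ^ (-(Module.finrank ℝ E + 1 : ℝ))) μ := by
    intro a
    have h1 : Integrable (fun x : E => (1 + ‖x‖) ^ (-(Module.finrank ℝ E + 1 : ℝ))) μ :=
      integrable_one_add_norm (by linarith)
    exact h1.comp_add_left a
  let J : ℝ := ∫ x : E, (1 + ‖x‖) ^ (-(Module.finrank ℝ E + 1 : ℝ)) ∂μ
  have hJ : ∀ a : E, ∫ x : E, (1 + ‖a + x‖) ^ (-(Module.finrank ℝ E + 1 : ℝ)) ∂μ = J := by
    intro a
    exact integral_add_left_eq_self
      (fun x : E => (1 + ‖x‖) ^ (-(Module.finrank ℝ E + 1 : ℝ))) a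
  have hJ0 : 0 ≤ J := integral_nonneg fun x => by positivity
  refine ⟨ρ, ρ * J / μ.real D, hρ1, by positivity, ?_⟩
  intro g C a hC hg hgi
  let h : E → ℝ := fun x => g (a + x)
  have hhi : Integrable h μ := hgi.comp_add_left a
  have hhint : ∫ x, h x ∂μ = ∫ x, g x ∂μ := integral_add_left_eq_self g a
  let φ : E → ℝ := fun x => (1 + ‖a + x‖) ^ (-(Module.finrank ℝ E + 1 : ℝ))
  have hφi : Integrable φ μ := hJi a
  have hs1 := hsum h hhi
  have hs2 := (hsum φ hφi).mul_left (C * ρ)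
  rw [show (∫ x, φ x ∂μ) = J from hJ a] at hs2
  let e : Λ → ℝ := fun l => (∫ x in ((l : E) +ᵥ D), h x ∂μ) - μ.real D * h l
  have he : ∀ l : Λ, ‖e l‖ ≤ C * ρ * ∫ x in ((l : E) +ᵥ D), φ x ∂μ := by
    intro l
    have hfin : μ ((l : E) +ᵥ D) ≠ ⊤ := by
      rw [measure_vadd]
      exact hDb.measure_lt_top.ne
    have h1 : e l = ∫ x in ((l : E) +ᵥ D), (h x - h l) ∂μ := by
      rw [integral_sub hhi.integrableOn (integrableOn_const hfin), setIntegral_const, hvol l,
        smul_eq_mul]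
    rw [h1, ← integral_const_mul]
    apply norm_integral_le_of_norm_le (hφi.integrableOn.const_mul _)
    have hm : MeasurableSet ((l : E) +ᵥ D) := hDm.const_vadd (l : E)
    filter_upwards [ae_restrict_mem hm] with x hx
    rw [Set.mem_vadd_set] at hx
    obtain ⟨y, hy, rfl⟩ := hx
    have h2 : ‖(a + ((l : E) +ᵥ y)) - (a + (l : E))‖ ≤ ρ := by
      rw [vadd_eq_add]
      have h3 : (a + ((l : E) + y)) - (a + (l : E)) = y := by abel
      rw [h3]
      exact hρD y hy
    have h4 := hg _ _ h2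
    rw [Real.norm_eq_abs]
    refine h4.trans ?_
    have h5 : 0 ≤ φ ((l : E) +ᵥ y) := by positivity
    exact mul_le_mul_of_nonneg_right (mul_le_mul_of_nonneg_left h2 hC) h5
  have hes : Summable e := Summable.of_norm_bounded hs2.summable he
  have hes2 : ‖∑' l, e l‖ ≤ C * ρ * J := by
    rw [← hs2.tsum_eq]
    exact tsum_of_norm_bounded hs2.summable.hasSum he
  have hmul : Summable fun l : Λ => μ.real D * h l := by
    have h1 := hs1.summable.sub hes
    refine h1.congr ?_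
    intro l
    change (∫ x in ((l : E) +ᵥ D), h x ∂μ) - ((∫ x in ((l : E) +ᵥ D), h x ∂μ) - μ.real D * h l) = _
    ring
  have hsm : Summable fun l : Λ => h l := (summable_mul_left_iff hD0.ne').mp hmul
  have htot : μ.real D * ∑' l : Λ, h l = (∫ x, g x ∂μ) - ∑' l, e l := by
    rw [← tsum_mul_left, ← hhint, ← hs1.tsum_eq, ← hs1.summable.tsum_sub hes]
    apply tsum_congr
    intro l
    change _ = (∫ x in ((l : E) +ᵥ D), h x ∂μ) - ((∫ x in ((l : E) +ᵥ D), h x ∂μ) - μ.real D * h l)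
    ring
  refine ⟨hsm, ?_⟩
  rw [hcov]
  have h6 : (∑' l : Λ, g (a + l)) - (μ.real D)⁻¹ * ∫ x, g x ∂μ = -((∑' l, e l) / μ.real D) := by
    have h7 : (∑' l : Λ, g (a + l)) = ((∫ x, g x ∂μ) - ∑' l, e l) / μ.real D := by
      rw [eq_div_iff hD0.ne', mul_comm]
      exact htot
    rw [h7]
    ring
  rw [h6, abs_neg, abs_div, abs_of_pos hD0]
  rw [show ρ * J / μ.real D * C = (C * ρ * J) / μ.real D by ring]
  exact div_le_div_of_nonneg_right hes2 hD0.le

end REC
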