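import Pool.Agent.Helper85.REC.Stmts13

/-!
# YFF: an element of the field with `l ^ d` elements (MP_78e9a5, part 12)
-/

set_option autoImplicit false

open Polynomial

namespace Pool.Agent.Helper14.REC.YFF

variable {d l : ℕ} [NeZero d] [Fact l.Prime]

/-- the closure -/
abbrev Kb (l : ℕ) [Fact l.Prime] : Type := AlgebraicClosure (ZMod l)

lemma fin_succ_cases (hd : 2 ≤ d) (i : Fin d) :
    (i.val + 1 < d ∧ (i + 1 : Fin d).val = i.val + 1) ∨ (i.val + 1 = d ∧ (i + 1 : Fin d).val = 0) := by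
  have h1 : (i + 1 : Fin d).val = (i.val + 1) % d := by
    rw [Fin.val_add, Fin.val_one', Nat.add_mod_mod]
  have hi := i.isLt
  rcases Nat.lt_or_ge (i.val + 1) d with h | h
  · left
    exact ⟨h, by rw [h1, Nat.mod_eq_of_lt h]⟩
  · right
    have h2 : i.val + 1 = d := by omega
    exact ⟨h2, by rw [h1, h2, Nat.mod_self]⟩

lemma z_succ (hd : 2 ≤ d) {z : Kb l} (hz : z ^ l ^ d = z) (i : Fin d) :
    z ^ l ^ (i + 1 : Fin d).val = (z ^ l ^ i.val) ^ l := by
  rcases fin_succ_cases hd i with ⟨-, h⟩ | ⟨h1, h⟩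
  · rw [h, pow_succ, pow_mul]
  · rw [h, pow_zero, pow_one, ← pow_mul, ← pow_succ, h1, hz]

/-- the indicator function -/
def chi (l : ℕ) (J : Finset (Fin d)) (i : Fin d) : ZMod l := if i ∈ J then 1 else 0

/-- first difference -/
def aa (l : ℕ) (J : Finset (Fin d)) (i : Fin d) : ZMod l := chi l J i - chi l J (i - 1)

/-- second difference -/
def cc (l : ℕ) (J : Finset (Fin d)) (i : Fin d) : ZMod l := aa l J i - aa l J (i - 1)

lemma const_of_shift {R : Type*} (f : Fin d → R) (h : ∀ i, f i = f (i - 1)) (i : Fin d) :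
    f i = f 0 := by
  have h1 : ∀ m : ℕ, f (Fin.ofNat d m) = f 0 := by
    intro m
    induction m with
    | zero => rfl
    | succ m ih =>
      have h0 : Fin.ofNat d (m + 1) = Fin.ofNat d m + 1 := by
        apply Fin.ext
        rw [Fin.val_add, Fin.val_one', Nat.add_mod_mod]
        simp [Fin.ofNat]
      rw [h, h0, add_sub_cancel_right, ih]
  have h2 := h1 i.val
  have h3 : Fin.ofNat d i.val = i := Fin.ext (Nat.mod_eq_of_lt i.isLt)
  rwa [h3] at h2

lemma sum_shift {R : Type*} [AddCommMonoid R] (f : Fin d → R) : ∑ i, f (i - 1) = ∑ i, f i :=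
  Equiv.sum_comp (Equiv.subRight (1 : Fin d)) f

lemma exists_cc (hd : 2 ≤ d) (hl : 2 ^ d < l) {J : Finset (Fin d)} (hJ : J.Nonempty)
    (hJ' : J ≠ Finset.univ) : ∃ i, cc l J i ≠ 0 := by
  by_contra hcon
  push Not at hcon
  have h1 : ∀ i, aa l J i = aa l J 0 := const_of_shift (aa l J) (fun i => sub_eq_zero.mp (hcon i))
  have h2 : ∑ i, aa l J i = 0 := by
    simp only [aa]
    rw [Finset.sum_sub_distrib, sum_shift, sub_self]
  have h3 : (d : ZMod l) * aa l J 0 = 0 := by
    rw [← h2, Finset.sum_congr rfl (fun i _ => h1 i), Finset.sum_const, Finset.card_univ,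
      Fintype.card_fin, nsmul_eq_mul]
  have h4 : (d : ZMod l) ≠ 0 := by
    intro h0
    rw [ZMod.natCast_eq_zero_iff] at h0
    have h5 := Nat.le_of_dvd (by omega) h0
    have h6 : d < 2 ^ d := Nat.lt_two_pow_self
    omega
  have h5 : aa l J 0 = 0 := (mul_eq_zero.mp h3).resolve_left h4
  have h6 : ∀ i, chi l J i = chi l J 0 := const_of_shift (chi l J) (fun i => by
    have := h1 i
    rw [h5] at this
    exact sub_eq_zero.mp this)
  obtain ⟨j, hj⟩ := hJ
  have h7 : chi l J 0 = 1 := by rw [← h6 j]; simp [chi, hj]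
  apply hJ'
  ext i
  simp only [Finset.mem_univ, iff_true]
  by_contra hi
  have h8 := h6 i
  rw [h7] at h8
  simp [chi, hi] at h8

/-- the additive polynomial -/
noncomputable def PJ (l : ℕ) [Fact l.Prime] (J : Finset (Fin d)) : (Kb l)[X] :=
  ∑ i : Fin d, C (algebraMap (ZMod l) (Kb l) (cc l J i)) * X ^ l ^ i.val

lemma PJ_coeff (J : Finset (Fin d)) (i : Fin d) :
    (PJ l J).coeff (l ^ i.val) = algebraMap (ZMod l) (Kb l) (cc l J i) := by
  unfold PJ
  rw [finset_sum_coeff, Finset.sum_eq_single i]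
  · rw [coeff_C_mul, coeff_X_pow, if_pos rfl, mul_one]
  · intro j _ hj
    rw [coeff_C_mul, coeff_X_pow, if_neg, mul_zero]
    intro h
    apply hj
    have := Nat.pow_right_injective (Fact.out : l.Prime).two_le h
    exact Fin.ext this.symm
  · intro h
    exact absurd (Finset.mem_univ _) h

lemma PJ_ne (hd : 2 ≤ d) (hl : 2 ^ d < l) {J : Finset (Fin d)} (hJ : J.Nonempty)
    (hJ' : J ≠ Finset.univ) : PJ l J ≠ 0 := by
  obtain ⟨i, hi⟩ := exists_cc hd hl hJ hJ'
  intro h0
  have h1 := PJ_coeff (l := l) J i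
  rw [h0, coeff_zero] at h1
  exact hi ((map_eq_zero _).mp h1.symm)

lemma PJ_deg (J : Finset (Fin d)) : (PJ l J).natDegree ≤ l ^ (d - 1) := by
  unfold PJ
  apply natDegree_sum_le_of_forall_le
  intro i _
  refine (natDegree_C_mul_X_pow_le _ _).trans ?_
  exact Nat.pow_le_pow_right (Fact.out : l.Prime).pos (by have := i.isLt; omega)

lemma PJ_root (hd : 2 ≤ d) {z : Kb l} (hz : z ^ l ^ d = z) (J : Finset (Fin d)) (a : ZMod l)
    (ha : ∑ i ∈ J, (z ^ l ^ i.val - z ^ l ^ (i + 1 : Fin d).val)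
      = algebraMap (ZMod l) (Kb l) a) : (PJ l J).IsRoot z := by
  have h1 : ∑ i ∈ J, (z ^ l ^ i.val - z ^ l ^ (i + 1 : Fin d).val)
      = ∑ i : Fin d, algebraMap (ZMod l) (Kb l) (aa l J i) * z ^ l ^ i.val := by
    have h2 : ∑ i : Fin d, algebraMap (ZMod l) (Kb l) (aa l J i) * z ^ l ^ i.val
        = ∑ i : Fin d, algebraMap (ZMod l) (Kb l) (chi l J i) * z ^ l ^ i.val
          - ∑ i : Fin d, algebraMap (ZMod l) (Kb l) (chi l J (i - 1)) * z ^ l ^ i.val := by
      rw [← Finset.sum_sub_distrib]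
      refine Finset.sum_congr rfl fun i _ => ?_
      rw [aa, map_sub, sub_mul]
    have h3 : ∑ i : Fin d, algebraMap (ZMod l) (Kb l) (chi l J (i - 1)) * z ^ l ^ i.val
        = ∑ i : Fin d, algebraMap (ZMod l) (Kb l) (chi l J i) * z ^ l ^ (i + 1 : Fin d).val := by
      rw [← sum_shift (fun i : Fin d => algebraMap (ZMod l) (Kb l) (chi l J i)
        * z ^ l ^ (i + 1 : Fin d).val)]
      refine Finset.sum_congr rfl fun i _ => ?_
      show _ = algebraMap (ZMod l) (Kb l) (chi l J (i - 1)) * z ^ l ^ (i - 1 + 1 : Fin d).val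
      rw [sub_add_cancel]
    rw [h2, h3, ← Finset.sum_sub_distrib]
    have h4 : ∀ i : Fin d, algebraMap (ZMod l) (Kb l) (chi l J i) * z ^ l ^ i.val
        - algebraMap (ZMod l) (Kb l) (chi l J i) * z ^ l ^ (i + 1 : Fin d).val
        = if i ∈ J then (z ^ l ^ i.val - z ^ l ^ (i + 1 : Fin d).val) else 0 := by
      intro i
      by_cases hi : i ∈ J
      · simp [chi, hi]
      · simp [chi, hi]
    rw [Finset.sum_congr rfl (fun i _ => h4 i), ← Finset.sum_filter]
    refine Finset.sum_congr ?_ fun _ _ => rfl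
    ext i
    simp
  have hfr : (∑ i : Fin d, algebraMap (ZMod l) (Kb l) (aa l J i) * z ^ l ^ i.val) ^ l
      = ∑ i : Fin d, algebraMap (ZMod l) (Kb l) (aa l J (i - 1)) * z ^ l ^ i.val := by
    rw [sum_pow_char, ← sum_shift (fun i : Fin d =>
      (algebraMap (ZMod l) (Kb l) (aa l J i) * z ^ l ^ i.val) ^ l)]
    refine Finset.sum_congr rfl fun i _ => ?_
    have h2 := z_succ hd hz (i - 1)
    rw [sub_add_cancel] at h2
    rw [mul_pow, ← h2, ← map_pow, ZMod.pow_card]
  rw [h1] at ha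
  have h5 : (algebraMap (ZMod l) (Kb l) a) ^ l = algebraMap (ZMod l) (Kb l) a := by
    rw [← map_pow, ZMod.pow_card]
  rw [← ha, hfr] at h5
  rw [IsRoot.def]
  unfold PJ
  rw [eval_finset_sum]
  have h6 : ∀ i : Fin d, eval z (C (algebraMap (ZMod l) (Kb l) (cc l J i)) * X ^ l ^ i.val)
      = algebraMap (ZMod l) (Kb l) (aa l J i) * z ^ l ^ i.val
        - algebraMap (ZMod l) (Kb l) (aa l J (i - 1)) * z ^ l ^ i.val := by
    intro i
    rw [eval_mul, eval_C, eval_pow, eval_X, cc, map_sub, sub_mul]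
  rw [Finset.sum_congr rfl (fun i _ => h6 i), Finset.sum_sub_distrib, h5, sub_self]

lemma exists_z (hd : 2 ≤ d) (hl : 2 ^ d < l) : ∃ z : Kb l, z ^ l ^ d = z ∧
    ∀ J : Finset (Fin d), J.Nonempty → J ≠ Finset.univ → ¬ (PJ l J).IsRoot z := by
  classical
  have hp : l.Prime := Fact.out
  let g : (ZMod l)[X] := X ^ l ^ d - X
  have hsep : g.Separable := galois_poly_separable l _ (dvd_pow_self l (by omega))
  have hsp : Splits (g.map (algebraMap (ZMod l) (Kb l))) := IsAlgClosed.splits _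
  have hcard : Fintype.card (g.rootSet (Kb l)) = l ^ d := by
    rw [card_rootSet_eq_natDegree hsep hsp]
    exact FiniteField.X_pow_card_pow_sub_X_natDegree_eq _ (by omega) hp.one_lt
  let Z : Finset (Kb l) := (g.rootSet (Kb l)).toFinset
  have hZ : Z.card = l ^ d := by rw [Set.toFinset_card]; exact hcard
  let T : Finset (Finset (Fin d)) := Finset.univ.filter (fun J => J.Nonempty ∧ J ≠ Finset.univ)
  let B : Finset (Kb l) := T.biUnion (fun J => (PJ l J).roots.toFinset)
  have hB : B.card ≤ 2 ^ d * l ^ (d - 1) := by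
    refine (Finset.card_biUnion_le_card_mul _ _ (l ^ (d - 1)) ?_).trans ?_
    · intro J _
      exact ((PJ l J).roots.toFinset_card_le.trans (card_roots' _)).trans (PJ_deg J)
    · apply Nat.mul_le_mul_right
      refine (Finset.card_filter_le _ _).trans ?_
      rw [Finset.card_univ, Fintype.card_finset, Fintype.card_fin]
  have hlt : B.card < Z.card := by
    rw [hZ]
    refine lt_of_le_of_lt hB ?_
    have h1 : l ^ d = l * l ^ (d - 1) := by
      rw [← pow_succ']
      congr 1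
      omega
    rw [h1]
    exact Nat.mul_lt_mul_of_pos_right hl (pow_pos hp.pos _)
  obtain ⟨z, hz, hzB⟩ := Finset.exists_mem_notMem_of_card_lt_card hlt
  refine ⟨z, ?_, ?_⟩
  · have h1 : z ∈ g.rootSet (Kb l) := Set.mem_toFinset.mp hz
    have h2 := (mem_rootSet.mp h1).2
    simp only [g, map_sub, map_pow, aeval_X] at h2
    exact sub_eq_zero.mp h2
  · intro J hJ hJ' hroot
    apply hzB
    refine Finset.mem_biUnion.mpr ⟨J, ?_, ?_⟩
    · exact Finset.mem_filter.mpr ⟨Finset.mem_univ _, hJ, hJ'⟩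
    · rw [Multiset.mem_toFinset, mem_roots (PJ_ne hd hl hJ hJ')]
      exact hroot

end Pool.Agent.Helper14.REC.YFF

namespace REC

open Pool.Agent.Helper14.REC.YFF

theorem st_YFF : ST_YFF := by
  intro d l _ hd hl
  haveI : NeZero d := ⟨by omega⟩
  obtain ⟨z, hz, hz'⟩ := exists_z hd hl
  let y : Fin d → AlgebraicClosure (ZMod l) := fun i =>
    z ^ l ^ i.val - z ^ l ^ (i + 1 : Fin d).val
  have hy : ∀ i, y (i + 1) = y i ^ l := by
    intro i
    show z ^ l ^ (i + 1 : Fin d).val - z ^ l ^ (i + 1 + 1 : Fin d).val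
      = (z ^ l ^ i.val - z ^ l ^ (i + 1 : Fin d).val) ^ l
    rw [sub_pow_char, ← z_succ hd hz i, ← z_succ hd hz (i + 1)]
  let f0 : (AlgebraicClosure (ZMod l))[X] := ∏ i, (Polynomial.X - C (y i))
  have hf0m : f0.Monic := monic_prod_of_monic _ _ fun i _ => monic_X_sub_C _
  have hf0d : f0.natDegree = d := by
    show (∏ i, (Polynomial.X - C (y i))).natDegree = d
    rw [natDegree_prod_of_monic _ _ (fun i _ => monic_X_sub_C _)]
    simp
  have hfrob : f0.map (frobenius (AlgebraicClosure (ZMod l)) l) = f0 := by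
    show (∏ i, (Polynomial.X - C (y i))).map (frobenius (AlgebraicClosure (ZMod l)) l) = ∏ i, (Polynomial.X - C (y i))
    rw [Polynomial.map_prod]
    rw [← Equiv.prod_comp (Equiv.addRight (1 : Fin d)) (fun i => Polynomial.X - C (y i))]
    refine Finset.prod_congr rfl fun i _ => ?_
    show _ = Polynomial.X - C (y (i + 1))
    rw [hy i, Polynomial.map_sub, map_X, map_C, frobenius_def]
  have hlift : f0 ∈ lifts (algebraMap (ZMod l) (AlgebraicClosure (ZMod l))) := by
    rw [lifts_iff_coeff_lifts]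
    intro m
    have h1 : (f0.coeff m) ^ l = f0.coeff m := by
      have h2 := congrArg (fun p => p.coeff m) hfrob
      simp only [coeff_map, frobenius_def] at h2
      exact h2
    have h3 : f0.coeff m ∈ (⊥ : Subfield (AlgebraicClosure (ZMod l))) :=
      (Subfield.mem_bot_iff_pow_eq_self _ l).mpr h1
    have h4 : (⊥ : Subfield (AlgebraicClosure (ZMod l)))
        ≤ (algebraMap (ZMod l) (AlgebraicClosure (ZMod l))).fieldRange := bot_le
    exact h4 h3
  obtain ⟨f, hf1, hf2, hf3⟩ := lifts_and_natDegree_eq_and_monic hlift hf0m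
  have hinj : Function.Injective (algebraMap (ZMod l) (AlgebraicClosure (ZMod l))) :=
    (algebraMap (ZMod l) (AlgebraicClosure (ZMod l))).injective
  refine ⟨y, f, hf3, by rw [hf2, hf0d], ?_, hf1, ?_⟩
  · apply hinj
    rw [map_zero, ← coeff_map, hf1]
    have h1 := prod_X_sub_C_coeff_card_pred (Finset.univ : Finset (Fin d)) y
      (by rw [Finset.card_univ, Fintype.card_fin]; omega)
    rw [Finset.card_univ, Fintype.card_fin] at h1
    show (∏ i, (Polynomial.X - C (y i))).coeff (d - 1) = 0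
    rw [h1, neg_eq_zero]
    show ∑ i : Fin d, (z ^ l ^ i.val - z ^ l ^ (i + 1 : Fin d).val) = 0
    rw [Finset.sum_sub_distrib, sub_eq_zero]
    exact (Equiv.sum_comp (Equiv.addRight (1 : Fin d)) (fun i => z ^ l ^ i.val)).symm
  · intro J hJ hJ' a ha
    exact hz' J hJ hJ' (PJ_root hd hz J a ha)

end REC
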